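import Pool.Agent.W14.US.Stm

/-!
# Project US, part BD
-/

set_option autoImplicit false

open Complex MeasureTheory Set Metric

namespace Pool.Agent.W648.US

open Pool.Agent.W14.US

theorem integrableOn_norm_inv (r : ℝ) :
    IntegrableOn (fun w : ℂ => ‖w‖⁻¹) (ball (0 : ℂ) r) := by
  rw [integrableOn_fun_norm_addHaar (volume : Measure ℂ) (f := fun y : ℝ => y⁻¹)]
  have h1 : IntegrableOn (fun _ : ℝ => (1 : ℝ)) (Ioo 0 r) := by
    simp
  refine h1.congr_fun ?_ measurableSet_Ioo
  intro y hy
  have hy0 : y ≠ 0 := hy.1.ne'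
  simp [Complex.finrank_real_complex, hy0]

theorem integral_norm_inv {r : ℝ} (hr : 0 < r) :
    ∫ w in ball (0 : ℂ) r, ‖w‖⁻¹ = 2 * Real.pi * r := by
  rw [← integral_indicator measurableSet_ball]
  have h1 : (fun w : ℂ => (ball (0 : ℂ) r).indicator (fun w => ‖w‖⁻¹) w) =
      fun w : ℂ => (Iio r).indicator (fun y : ℝ => y⁻¹) ‖w‖ := by
    funext w
    simp only [indicator, mem_ball_zero_iff, mem_Iio]
  rw [h1, integral_fun_norm_addHaar (volume : Measure ℂ) (fun y : ℝ => (Iio r).indicator
    (fun y : ℝ => y⁻¹) y)]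
  have h2 : (volume : Measure ℂ).real (ball (0 : ℂ) 1) = Real.pi := by
    rw [measureReal_def, Complex.volume_ball]
    simp
  have h3 : ∫ y in Ioi (0 : ℝ), y ^ (Module.finrank ℝ ℂ - 1) •
      (Iio r).indicator (fun y : ℝ => y⁻¹) y = r := by
    have h4 : ∀ y ∈ Ioi (0 : ℝ), y ^ (Module.finrank ℝ ℂ - 1) •
        (Iio r).indicator (fun y : ℝ => y⁻¹) y = (Iio r).indicator (fun _ : ℝ => (1 : ℝ)) y := by
      intro y hy
      have hy0 : y ≠ 0 := (mem_Ioi.1 hy).ne'
      simp only [indicator, mem_Iio, Complex.finrank_real_complex]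
      split_ifs
      · simp [hy0]
      · simp
    rw [setIntegral_congr_fun measurableSet_Ioi h4, setIntegral_indicator measurableSet_Iio]
    rw [Ioi_inter_Iio]
    simp [hr.le]
  rw [h2, h3, Complex.finrank_real_complex]
  simp only [nsmul_eq_mul, smul_eq_mul]
  push_cast
  ring

theorem bd : S_BD := by
  intro g m a r A hg hc hA hm ha hr hgm hgA hvol z
  let B : Set ℂ := (fun w => z - w) ⁻¹' A
  have hB : MeasurableSet B := (measurable_const.sub measurable_id) hA
  have hBv : volume B = volume A :=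
    (Measure.measurePreserving_sub_left volume z).measure_preimage hA.nullMeasurableSet
  have hBle : volume B ≤ ENNReal.ofReal a := hBv ▸ hvol
  have hBfin : volume B ≠ ⊤ := ne_top_of_le_ne_top ENNReal.ofReal_ne_top hBle
  have hBr : volume.real B ≤ a := by
    rw [measureReal_def]
    exact ENNReal.toReal_le_of_le_ofReal ha hBle
  have hi1 : Integrable (fun w : ℂ => (ball (0 : ℂ) r).indicator (fun w => ‖w‖⁻¹) w) :=
    (integrable_indicator_iff measurableSet_ball).2 (integrableOn_norm_inv _)
  have hi2 : Integrable (fun w : ℂ => B.indicator (fun _ => m / r) w) :=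
    (integrable_indicator_iff hB).2 (integrableOn_const hBfin)
  have hbd : ‖∫ w, g (z - w) * w⁻¹‖ ≤
      ∫ w, (m * (ball (0 : ℂ) r).indicator (fun w => ‖w‖⁻¹) w + B.indicator (fun _ => m / r) w) := by
    refine norm_integral_le_of_norm_le ((hi1.const_mul m).add hi2)
      (Filter.Eventually.of_forall fun w => ?_)
    rw [norm_mul, norm_inv]
    by_cases hw : w ∈ ball (0 : ℂ) r
    · rw [indicator_of_mem hw]
      have h1 : 0 ≤ B.indicator (fun _ => m / r) w :=
        indicator_nonneg (fun _ _ => div_nonneg hm hr.le) w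
      have h2 : ‖g (z - w)‖ * ‖w‖⁻¹ ≤ m * ‖w‖⁻¹ :=
        mul_le_mul_of_nonneg_right (hgm _) (inv_nonneg.2 (norm_nonneg _))
      linarith
    · rw [indicator_of_notMem hw, mul_zero, zero_add]
      have hw' : r ≤ ‖w‖ := by
        rw [mem_ball_zero_iff, not_lt] at hw
        exact hw
      by_cases hwB : w ∈ B
      · rw [indicator_of_mem hwB, div_eq_mul_inv]
        exact mul_le_mul (hgm _) (inv_anti₀ hr hw') (inv_nonneg.2 (norm_nonneg _)) hm
      · rw [indicator_of_notMem hwB, hgA _ hwB, norm_zero, zero_mul]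
  rw [integral_add (hi1.const_mul m) hi2, integral_const_mul, integral_indicator
    measurableSet_ball, integral_norm_inv hr, integral_indicator hB, setIntegral_const,
    smul_eq_mul] at hbd
  have hpi : 0 < Real.pi := Real.pi_pos
  have hpi1 : 1 ≤ Real.pi := by linarith [Real.pi_gt_three]
  unfold T
  rw [norm_mul, Complex.norm_real, Real.norm_of_nonneg (by positivity)]
  have hx : 0 ≤ m * a / r := by positivity
  calc 1 / Real.pi * ‖∫ w, g (z - w) * w⁻¹‖
      ≤ 1 / Real.pi * (m * (2 * Real.pi * r) + volume.real B * (m / r)) :=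
        mul_le_mul_of_nonneg_left hbd (by positivity)
    _ ≤ 1 / Real.pi * (m * (2 * Real.pi * r) + a * (m / r)) := by
        gcongr
    _ = m * (2 * r) + 1 / Real.pi * (m * a / r) := by
        field_simp
    _ ≤ m * (2 * r) + 1 * (m * a / r) := by
        gcongr
        rw [div_le_one hpi]
        exact hpi1
    _ = m * (2 * r + a / r) := by ring

end Pool.Agent.W648.US
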